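import Mathlib
import Pool.Agent.H36.TC.Low
import Pool.Agent.H36.TC.Copies

/-!
# Transition complexity of inverse morphism: bounds uniform in the alphabet size

`g k m` is the worst-case transition complexity of inverse morphism from `k` letters. The bounds
below hold for all `k` and `m` at once, with absolute constants; the lower bound is linear in `k`.
They contain the order of growth for every fixed `k`.
-/

set_option autoImplicit false

namespace Pool.Agent.Results.MP_91c91a_lc.AlphabetSize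

open Filter Topology Asymptotics

/-- The automaton with transitions `D` and accepting states `F` accepts the word from the given
state. -/
def Acc {S Q : Type} (F : Set Q) (D : Finset (Q × S × Q)) : List S → Q → Prop
  | [], p => p ∈ F
  | a :: w, p => ∃ q, (p, a, q) ∈ D ∧ Acc F D w q

/-- The least number of transitions of a nondeterministic finite automaton (one start state, no
empty transitions) recognising `L`. -/
noncomputable def tc {S : Type} (L : Language S) : ℕ :=
  sInf {t | ∃ (Q : Type) (_ : Fintype Q) (q₀ : Q) (F : Set Q) (D : Finset (Q × S × Q)),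
    (∀ w, w ∈ L ↔ Acc F D w q₀) ∧ D.card = t}

/-- The preimage of `L` under the morphism of free monoids determined by `h`. -/
def preimage {G S : Type} (h : G → List S) (L : Language S) : Language G :=
  {w | w.flatMap h ∈ L}

/-- All values of the transition complexity of the preimage of `L`, for all alphabets `G` with `k`
letters, all finite alphabets `S`, all morphisms and all regular `L` with `tc L = m`. -/
def values (k m : ℕ) : Set ℕ :=
  {t | ∃ (G S : Type) (_ : Fintype G) (_ : Fintype S) (h : G → List S) (L : Language S),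
    Fintype.card G = k ∧ L.IsRegular ∧ tc L = m ∧ t = tc (preimage h L)}

/-- The worst-case transition complexity of inverse morphism. -/
noncomputable def g (k m : ℕ) : ℕ := sSup (values k m)

theorem acc_iff {S Q : Type} (A : Pool.Agent.Helper948.Nfa.TNFA S Q) (w : List S) (p : Q) :
    Acc A.accept A.trans w p ↔ ∃ f ∈ A.accept, A.Path p w f := by
  induction w generalizing p with
  | nil =>
    simp only [Acc, Pool.Agent.Helper948.Nfa.path_nil_iff]
    constructor
    · intro h; exact ⟨p, h, rfl⟩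
    · rintro ⟨f, hf, rfl⟩; exact hf
  | cons a w ih =>
    simp only [Acc, Pool.Agent.Helper948.Nfa.path_cons_iff, ih]
    constructor
    · rintro ⟨q, h1, f, h2, h3⟩; exact ⟨f, h2, q, h1, h3⟩
    · rintro ⟨f, h2, q, h1, h3⟩; exact ⟨q, h1, f, h2, h3⟩

theorem tc_eq {S : Type} (L : Language S) : tc L = Pool.Agent.Helper948.Nfa.tc L := by
  unfold tc Pool.Agent.Helper948.Nfa.tc
  congr 1
  ext t
  constructor
  · rintro ⟨Q, hQ, q, F, D, h1, h2⟩
    refine ⟨Q, hQ, ⟨q, F, D⟩, ?_, h2⟩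
    ext w
    rw [h1]
    exact (acc_iff (⟨q, F, D⟩ : Pool.Agent.Helper948.Nfa.TNFA S Q) w q).symm
  · rintro ⟨Q, hQ, A, h1, h2⟩
    refine ⟨Q, hQ, A.start, A.accept, A.trans, fun w => ?_, h2⟩
    rw [acc_iff, ← h1]
    exact Iff.rfl

theorem values_eq (k m : ℕ) : values k m = Pool.Agent.Helper948.Nfa.gValues k m := by
  unfold values Pool.Agent.Helper948.Nfa.gValues
  simp only [tc_eq]
  rfl

theorem g_eq (k m : ℕ) : g k m = Pool.Agent.Helper948.Nfa.g k m := by
  unfold g Pool.Agent.Helper948.Nfa.g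
  rw [values_eq]

theorem upper (k m : ℕ) (hm : 2 ≤ m) :
    (g k m : ℝ) ≤ 9 * k * (k + 2) * (m : ℝ) ^ 2 / Real.log m := by
  rw [g_eq]
  exact Pool.Agent.Helper948.Nfa.g_upper k m hm

theorem one_language (m : ℕ) (hm : 1000 ≤ m) :
    ∃ (S : Type) (_ : Fintype S) (L : Language S), L.IsRegular ∧ tc L = m ∧
      ∀ k : ℕ, 2 ≤ k → ∃ h : Fin k → List S, (∀ i, h i ≠ []) ∧
        (k : ℝ) * ((m : ℝ) ^ 2 / Real.log m) ≤ 16000 * (tc (preimage h L) : ℝ) := by
  obtain ⟨S, hS, L, hL, hLm, H⟩ := Pool.Agent.H36.TC.one_lang_all m hm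
  refine ⟨S, hS, L, hL, by rw [tc_eq]; exact hLm, fun k hk => ?_⟩
  obtain ⟨h, h1, h2⟩ := H k hk
  refine ⟨h, h1, ?_⟩
  rw [tc_eq]
  exact h2

theorem greatest (k m : ℕ) : IsGreatest (values k m) (g k m) := by
  rw [values_eq, g_eq]
  exact ⟨Nat.sSup_mem (Pool.Agent.Helper948.Nfa.gValues_nonempty k m)
    (Pool.Agent.Helper948.Nfa.g_bdd k m),
    fun t ht => le_csSup (Pool.Agent.Helper948.Nfa.g_bdd k m) ht⟩

theorem lower (k m : ℕ) (hk : 2 ≤ k) (hm : 1000 ≤ m) :
    (k : ℝ) * ((m : ℝ) ^ 2 / Real.log m) ≤ 16000 * (g k m : ℝ) := by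
  obtain ⟨S, hS, L, hL, hLm, H⟩ := one_language m hm
  obtain ⟨h, -, h2⟩ := H k hk
  have h3 : tc (preimage h L) ≤ g k m :=
    (greatest k m).2 ⟨Fin k, S, inferInstance, hS, h, L, Fintype.card_fin k, hL, hLm, rfl⟩
  have h4 : (tc (preimage h L) : ℝ) ≤ g k m := by exact_mod_cast h3
  linarith

theorem copies (j k m : ℕ) (hj : 0 < j) : (k / j) * g j m ≤ g k m := by
  rw [g_eq, g_eq]
  exact Pool.Agent.H36.TC.g_copies j k m hj

theorem limit (m : ℕ) : ∃ c : ℝ,
    Tendsto (fun k : ℕ => (g k m : ℝ) / k) atTop (𝓝 c) ∧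
    (∀ k : ℕ, 0 < k → (g k m : ℝ) / k ≤ c) ∧ c ≤ ((m : ℝ) + 1) ^ 2 ∧
    (1000 ≤ m → (m : ℝ) ^ 2 / Real.log m ≤ 16000 * c) := by
  obtain ⟨c, h1, h2, h3⟩ := Pool.Agent.H36.TC.g_limit m
  simp only [← g_eq] at h1 h2
  refine ⟨c, h1, h2, h3, fun hm => ?_⟩
  have h4 := lower 2 m le_rfl hm
  have h5 := h2 2 (by norm_num)
  push_cast at h4 h5
  rw [div_le_iff₀ (by norm_num)] at h5
  linarith

theorem lower_log (k m : ℕ) (hm : 1000 ≤ m) (hk : Real.log m ≤ k) :
    (m : ℝ) ^ 2 ≤ 16000 * (g k m : ℝ) := by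
  have hmr : (1000 : ℝ) ≤ m := by exact_mod_cast hm
  have h1 : (1 : ℝ) < Real.log m := by
    have h2 : Real.exp 1 < m := by linarith [Real.exp_one_lt_d9]
    exact (Real.lt_log_iff_exp_lt (by linarith)).2 h2
  have hk2 : 2 ≤ k := by
    have h3 : (1 : ℝ) < k := lt_of_lt_of_le h1 hk
    exact_mod_cast h3
  have h := lower k m hk2 hm
  have h4 : (m : ℝ) ^ 2 ≤ (k : ℝ) * ((m : ℝ) ^ 2 / Real.log m) := by
    have h5 : (0 : ℝ) ≤ (m : ℝ) ^ 2 / Real.log m := by positivity
    have h6 := mul_le_mul_of_nonneg_right hk h5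
    have h7 : Real.log m * ((m : ℝ) ^ 2 / Real.log m) = (m : ℝ) ^ 2 := by
      field_simp
    linarith
  linarith

theorem theta (k : ℕ) (hk : 2 ≤ k) :
    (fun m : ℕ => (g k m : ℝ)) =Θ[atTop] (fun m : ℕ => (m : ℝ) ^ 2 / Real.log m) := by
  constructor
  · apply IsBigO.of_bound (9 * k * (k + 2))
    filter_upwards [eventually_ge_atTop 2] with m hm
    have h1 := upper k m hm
    have hlog : 0 ≤ Real.log m := Real.log_natCast_nonneg m
    rw [Real.norm_of_nonneg (Nat.cast_nonneg _), Real.norm_of_nonneg (by positivity)]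
    rw [mul_div_assoc] at h1
    exact h1
  · apply IsBigO.of_bound 16000
    filter_upwards [eventually_ge_atTop 1000] with m hm
    have h1 := lower k m hk hm
    have hlog : 0 ≤ Real.log m := Real.log_natCast_nonneg m
    rw [Real.norm_of_nonneg (Nat.cast_nonneg _), Real.norm_of_nonneg (by positivity)]
    refine le_trans ?_ h1
    have hk1 : (1 : ℝ) ≤ k := by exact_mod_cast (by omega : 1 ≤ k)
    have : 0 ≤ (m : ℝ) ^ 2 / Real.log m := by positivity
    nlinarith

theorem little (k : ℕ → ℕ)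
    (hk : Tendsto (fun m : ℕ => (k m : ℝ) ^ 2 / Real.log m) atTop (𝓝 0)) :
    Tendsto (fun m : ℕ => (g (k m) m : ℝ) / (m : ℝ) ^ 2) atTop (𝓝 0) := by
  have h2 : Tendsto (fun m : ℕ => 27 * ((k m : ℝ) ^ 2 / Real.log m)) atTop (𝓝 0) := by
    have := hk.const_mul 27
    simpa using this
  refine tendsto_of_tendsto_of_tendsto_of_le_of_le' tendsto_const_nhds h2 ?_ ?_
  · filter_upwards with m
    positivity
  · filter_upwards [eventually_ge_atTop 2] with m hm
    have h1 := upper (k m) m hm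
    have hm' : (0 : ℝ) < m := by
      have : 0 < m := by omega
      exact_mod_cast this
    have hlog : 0 ≤ Real.log m := Real.log_natCast_nonneg m
    rw [div_le_iff₀ (by positivity)]
    refine h1.trans ?_
    have h3 : 9 * (k m : ℝ) * (k m + 2) ≤ 27 * (k m : ℝ) ^ 2 := by
      rcases Nat.eq_zero_or_pos (k m) with h | h
      · rw [h]; simp
      · have : (1 : ℝ) ≤ k m := by exact_mod_cast h
        nlinarith
    have h4 : 9 * (k m : ℝ) * (k m + 2) * (m : ℝ) ^ 2 ≤ 27 * (k m : ℝ) ^ 2 * (m : ℝ) ^ 2 :=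
      mul_le_mul_of_nonneg_right h3 (by positivity)
    refine (div_le_div_of_nonneg_right h4 hlog).trans (le_of_eq ?_)
    ring

/-- Transition complexity of inverse morphism, uniformly in the alphabet size `k`.

(1) The worst case `g k m` is attained. (2) For one letter it lies between `m` and `2 m + 2`.
(3) Upper bounds for all `k`. (4) Copying `j` letters multiplies the worst case: `g k m` is at
least `k / j` (rounded down) times `g j m`. (5) For every `m` the limit of `g k m / k` as `k` goes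
to infinity exists and is the least upper bound of these quotients; it is at most `(m + 1) ^ 2`
and at least a constant times `m ^ 2 / log m`. (6) For every `m ≥ 1000` there is ONE regular
language `L` with `tc L = m` such that for EVERY `k ≥ 2` some nonerasing morphism from `k` letters
gives a preimage of complexity at least a constant times `k m ^ 2 / log m`. (7) Hence this lower
bound for `g k m`, for all `k ≥ 2` and `m ≥ 1000` at once. (8) For every fixed `k ≥ 2` the exact
order is `m ^ 2 / log m`. (9) Alphabets with at least `log m` letters give quadratic growth,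
alphabets with `o(sqrt (log m))` letters do not. -/
theorem result :
    (∀ k m : ℕ, IsGreatest (values k m) (g k m)) ∧
    (∀ m : ℕ, m ≤ g 1 m ∧ g 1 m ≤ 2 * m + 2) ∧
    (∀ k m : ℕ, g k m ≤ k * (m + 1) ^ 2 ∧
      (2 ≤ m → (g k m : ℝ) ≤ 9 * k * (k + 2) * (m : ℝ) ^ 2 / Real.log m)) ∧
    (∀ j k m : ℕ, 0 < j → (k / j) * g j m ≤ g k m) ∧
    (∀ m : ℕ, ∃ c : ℝ, Tendsto (fun k : ℕ => (g k m : ℝ) / k) atTop (𝓝 c) ∧
      (∀ k : ℕ, 0 < k → (g k m : ℝ) / k ≤ c) ∧ c ≤ ((m : ℝ) + 1) ^ 2 ∧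
      (1000 ≤ m → (m : ℝ) ^ 2 / Real.log m ≤ 16000 * c)) ∧
    (∀ m : ℕ, 1000 ≤ m → ∃ (S : Type) (_ : Fintype S) (L : Language S), L.IsRegular ∧ tc L = m ∧
      ∀ k : ℕ, 2 ≤ k → ∃ h : Fin k → List S, (∀ i, h i ≠ []) ∧
        (k : ℝ) * ((m : ℝ) ^ 2 / Real.log m) ≤ 16000 * (tc (preimage h L) : ℝ)) ∧
    (∀ k m : ℕ, 2 ≤ k → 1000 ≤ m →
      (k : ℝ) * ((m : ℝ) ^ 2 / Real.log m) ≤ 16000 * (g k m : ℝ)) ∧
    (∀ k : ℕ, 2 ≤ k →
      (fun m : ℕ => (g k m : ℝ)) =Θ[atTop] (fun m : ℕ => (m : ℝ) ^ 2 / Real.log m)) ∧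
    (∀ k m : ℕ, 1000 ≤ m → Real.log m ≤ k → (m : ℝ) ^ 2 ≤ 16000 * (g k m : ℝ)) ∧
    (∀ k : ℕ → ℕ, Tendsto (fun m : ℕ => (k m : ℝ) ^ 2 / Real.log m) atTop (𝓝 0) →
      Tendsto (fun m : ℕ => (g (k m) m : ℝ) / (m : ℝ) ^ 2) atTop (𝓝 0)) := by
  refine ⟨greatest, fun m => ?_, fun k m => ⟨?_, upper k m⟩, copies, limit, one_language, lower,
    theta, lower_log, little⟩
  · rw [g_eq]
    exact ⟨Pool.Agent.Helper178.UnaryTC.le_g_one m, Pool.Agent.Helper178.UnaryTC.g_one_le m⟩
  · rw [g_eq]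
    exact Pool.Agent.H36.TC.g_standard k m

end Pool.Agent.Results.MP_91c91a_lc.AlphabetSize
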